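import Pool.Agent.H92.EHD.TP
import Pool.Agent.H39.EQ.TB

/-!
# MP_75a732_an, board ehd_modules, row EA1: pull-back of densities
-/

set_option autoImplicit false

namespace Pool.Agent.H38.EHD

open scoped BigOperators ComplexConjugate ContDiff ComplexOrder
open MeasureTheory
open Pool.Agent.H92.EQ Pool.Agent.H92.EHD

section

variable {N : ℕ}

theorem nsq_pos' {z : Fin N → ℂ} (hz : z ≠ 0) : 0 < nsq z := by
  unfold nsq
  obtain ⟨i, hi⟩ := Function.ne_iff.1 hz
  refine Finset.sum_pos' (fun j _ => sq_nonneg _) ⟨i, Finset.mem_univ _, ?_⟩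
  have : 0 < ‖z i‖ := norm_pos_iff.2 hi
  positivity

theorem sum_mul_conj (z : Fin N → ℂ) : ∑ a, z a * conj (z a) = ((nsq z : ℝ) : ℂ) := by
  unfold nsq
  push_cast
  refine Finset.sum_congr rfl fun a _ => ?_
  rw [Complex.mul_conj, Complex.normSq_eq_norm_sq]
  push_cast
  rfl

theorem rad_quad {z : Fin N → ℂ} (hz : z ≠ 0) :
    ∑ a, ∑ b, z a * Rad z a b * conj (z b) = 1 / 4 := by
  have hn : ((nsq z : ℝ) : ℂ) ≠ 0 := Complex.ofReal_ne_zero.2 (nsq_pos' hz).ne'
  have h1 : ∀ a b, z a * Rad z a b * conj (z b) =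
      (z a * conj (z a)) * (z b * conj (z b)) * (1 / (4 * ((nsq z : ℝ) : ℂ) ^ 2)) := by
    intro a b
    unfold Rad
    ring
  simp only [h1]
  simp only [← Finset.sum_mul, ← Finset.mul_sum]
  rw [sum_mul_conj]
  field_simp

theorem euler {D : ℕ} {G : Fin N → MvPolynomial (Fin N) ℂ} (hG : ∀ i, (G i).IsHomogeneous D)
    (x : Fin N → ℂ) (i : Fin N) : ∑ a, x a * jac G x i a = (D : ℂ) * ev G x i := by
  have h := congrArg (MvPolynomial.eval x) (hG i).sum_X_mul_pderiv
  rw [map_sum] at h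
  unfold jac ev
  rw [map_nsmul, nsmul_eq_mul] at h
  rw [← h]
  refine Finset.sum_congr rfl fun a _ => ?_
  rw [map_mul, MvPolynomial.eval_X]

/-- the pull-back of the radial form -/
noncomputable def Rp (G : Fin N → MvPolynomial (Fin N) ℂ) (x : Fin N → ℂ) :
    Matrix (Fin N) (Fin N) ℂ := fun a b => ∑ a', ∑ b',
      jac G x a' a * conj (jac G x b' b) * Rad (ev G x) a' b'

theorem rp_quad {D : ℕ} {G : Fin N → MvPolynomial (Fin N) ℂ} (hG : ∀ i, (G i).IsHomogeneous D)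
    {x : Fin N → ℂ} (hy : ev G x ≠ 0) :
    ∑ a, ∑ b, x a * Rp G x a b * conj (x b) = (D : ℂ) ^ 2 * (1 / 4) := by
  rw [← rad_quad hy]
  have h1 : ∀ a b, x a * Rp G x a b * conj (x b) = ∑ a', ∑ b',
      Rad (ev G x) a' b' * ((x a * jac G x a' a) * conj (x b * jac G x b' b)) := by
    intro a b
    unfold Rp
    rw [Finset.mul_sum, Finset.sum_mul]
    refine Finset.sum_congr rfl fun a' _ => ?_
    rw [Finset.mul_sum, Finset.sum_mul]
    refine Finset.sum_congr rfl fun b' _ => ?_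
    rw [map_mul]
    ring
  simp only [h1]
  have h2 : ∀ a, ∑ b, ∑ a', ∑ b',
      Rad (ev G x) a' b' * ((x a * jac G x a' a) * conj (x b * jac G x b' b)) =
      ∑ a', ∑ b', Rad (ev G x) a' b' * ((x a * jac G x a' a) *
        conj ((D : ℂ) * ev G x b')) := by
    intro a
    rw [Finset.sum_comm]
    refine Finset.sum_congr rfl fun a' _ => ?_
    rw [Finset.sum_comm]
    refine Finset.sum_congr rfl fun b' _ => ?_
    rw [← Finset.mul_sum, ← Finset.mul_sum, ← map_sum, euler hG]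
  simp only [h2]
  rw [Finset.sum_comm, Finset.mul_sum]
  refine Finset.sum_congr rfl fun a' _ => ?_
  rw [Finset.sum_comm, Finset.mul_sum]
  refine Finset.sum_congr rfl fun b' _ => ?_
  rw [← Finset.mul_sum, ← Finset.sum_mul, euler hG, map_mul, Complex.conj_natCast]
  ring

theorem snoc_one (A B : Matrix (Fin N) (Fin N) ℂ) :
    (Fin.snoc (α := fun _ => Matrix (Fin N) (Fin N) ℂ) (fun _ : Fin 0 => B) A :
      Fin (0 + 1) → Matrix (Fin N) (Fin N) ℂ) = fun _ => A := by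
  funext i
  have : i = Fin.last 0 := by ext; have := i.2; simp only [Fin.val_last]; omega
  rw [this, Fin.snoc_last]

theorem update_one (A B : Matrix (Fin N) (Fin N) ℂ) :
    Function.update (fun _ : Fin (0 + 1) => B) 0 A = fun _ => A := by
  funext i
  have : i = 0 := by ext; have := i.2; simp only [Fin.val_zero]; omega
  rw [this, Function.update_self]

end

theorem pf_EA1 (hD10 : T_D10) (hA9 : T_A9) (hA1 : T_A1) : T_EA1 := by
  intro k D G σ hD hG hσ x hx hy
  have hDC : (D : ℂ) ≠ 0 := Nat.cast_ne_zero.2 (by omega)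
  have hE : ∀ i, ∑ a, x a * jac G x i a = (D : ℂ) * ev G x i := euler hG x
  have kL : KilL x (pull G σ x) :=
    Pool.Agent.H39.EQ.TB.pull_kilL G σ x x (ev G x) D hE (hσ.basicL _ hy)
  have kR : KilR x (pull G σ x) :=
    Pool.Agent.H39.EQ.TB.pull_kilR G σ x x (ev G x) D hE (hσ.basicR _ hy)
  have h10 := hD10 (Fin (k + 1)) k (0 + 1) G σ (fun _ => Rad (ev G x)) x
  have h10' : mixD (pull G σ x) (fun _ : Fin (0 + 1) => Rp G x) =
      (‖(jac G x).det‖ ^ 2 : ℝ) * mixD (σ (ev G x)) (fun _ : Fin (0 + 1) => Rad (ev G x)) := h10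
  set Zm : Matrix (Fin (k + 1)) (Fin (k + 1)) ℂ := Rp G x - (D : ℂ) ^ 2 • Rad x with hZ
  have hZ0 : mixD (pull G σ x) (fun _ : Fin (0 + 1) => Zm) = 0 := by
    refine hA9 (Fin (k + 1)) k (0 + 1) _ _ 0 x hx kL kR
      (fun j hj => absurd (by ext; have := j.2; simp only [Fin.val_zero]; omega) hj) ?_
    have h1 : ∀ a b, x a * Zm a b * conj (x b) =
        x a * Rp G x a b * conj (x b) - (D : ℂ) ^ 2 * (x a * Rad x a b * conj (x b)) := by
      intro a b
      rw [hZ, Matrix.sub_apply, Matrix.smul_apply, smul_eq_mul]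
      ring
    simp only [h1, Finset.sum_sub_distrib]
    rw [rp_quad hG hy]
    simp only [← Finset.mul_sum]
    rw [rad_quad hx, sub_self]
  have hadd := (hA1 (Fin (k + 1)) k (0 + 1) (pull G σ x) (pull G σ x)
    (fun _ => Rad x) 0 ((D : ℂ) ^ 2 • Rad x) Zm 1).1
  have hsmul := (hA1 (Fin (k + 1)) k (0 + 1) (pull G σ x) (pull G σ x)
    (fun _ => Rad x) 0 (Rad x) Zm ((D : ℂ) ^ 2)).2.1
  rw [update_one, update_one, update_one] at hadd
  rw [update_one, update_one] at hsmul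
  have hsum : (D : ℂ) ^ 2 • Rad x + Zm = Rp G x := by
    rw [hZ]
    abel
  rw [hsum, hZ0, add_zero, h10', hsmul] at hadd
  have hfin : mixD (pull G σ x) (fun _ : Fin (0 + 1) => Rad x) =
      (((1 / (D : ℝ) ^ 2) * ‖(jac G x).det‖ ^ 2 : ℝ) : ℂ) *
        mixD (σ (ev G x)) (fun _ : Fin (0 + 1) => Rad (ev G x)) := by
    have h2 : mixD (pull G σ x) (fun _ : Fin (0 + 1) => Rad x) =
        ((D : ℂ) ^ 2)⁻¹ * ((D : ℂ) ^ 2 * mixD (pull G σ x) (fun _ : Fin (0 + 1) => Rad x)) := by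
      rw [← mul_assoc, inv_mul_cancel₀ (pow_ne_zero _ hDC), one_mul]
    rw [h2, ← hadd]
    push_cast
    ring
  unfold Q
  rw [snoc_one, snoc_one, hfin, Complex.re_ofReal_mul]
  ring

end Pool.Agent.H38.EHD
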