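import Pool.Agent.H92.EHD.TK

/-!
# MP_75a732_an, board ehd_modules, row EKS: summation over the levels
-/

set_option autoImplicit false

namespace Pool.Agent.H38.EHD

open scoped BigOperators ComplexConjugate ContDiff ComplexOrder
open MeasureTheory Filter Topology
open Pool.Agent.H92.EQ Pool.Agent.H92.EHD

theorem Cls_mono {k p q : ℕ} {K : Set (Fin (k + 1) → ℂ)} {A A' : ℝ} {S : Form (Fin (k + 1)) p}
    (hM : 0 ≤ mass q (om (k + 1) p)) (h : A ≤ A') (hS : Cls K q A S) : Cls K q A' S :=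
  ⟨hS.pf, hS.ink, hS.ms, fun δ h0 h1 =>
    (hS.lm δ h0 h1).trans (mul_le_mul_of_nonneg_right h hM)⟩

theorem pf_EKS (hK1 : T_EK1) (hK2 : T_EK2) (hD7 : T_D7) : T_EKS := by
  classical
  intro k d p q F 𝒦 hk hd hpq hF hStK hconv hP η δ hη hδ
  obtain ⟨C, hC0, hk1⟩ := hK1 k d p q F hk hd hpq hF
  obtain ⟨M, hM⟩ : ∃ M : ℝ, M = mass q (om (k + 1) p) := ⟨_, rfl⟩
  have hM0 : 0 < M := by
    rw [hM]
    exact ((hD7 (k + 1) p).2 q (by omega)).1
  have hd1 : (1 : ℝ) < d := by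
    have : 1 < d := by omega
    exact_mod_cast this
  have hd0 : (0 : ℝ) < d := by linarith
  have hr1 : |(1 / (d : ℝ))| < 1 := by
    rw [abs_of_pos (by positivity), div_lt_one hd0]
    exact hd1
  -- the convergent series
  obtain ⟨f, hf⟩ : ∃ f : ℕ → ℝ, f = fun l : ℕ => C / δ * ((l : ℝ) ^ 2 * (1 / (d : ℝ)) ^ l) :=
    ⟨_, rfl⟩
  have hf0 : ∀ l, 0 ≤ f l := by
    intro l
    rw [hf]
    show 0 ≤ C / δ * ((l : ℝ) ^ 2 * (1 / (d : ℝ)) ^ l)
    positivity
  have hfs : Summable f := by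
    rw [hf]
    refine Summable.mul_left _ ?_
    exact summable_pow_mul_geometric_of_norm_lt_one 2 (by rwa [Real.norm_eq_abs])
  obtain ⟨s, hs⟩ := summable_iff_vanishing_norm.1 hfs (η / 8) (by positivity)
  obtain ⟨L, hL⟩ : ∃ L : ℕ, L = s.sup id := ⟨_, rfl⟩
  -- the levels up to `L`
  have hk2 : ∀ l : ℕ, ∃ a h0 : ℝ, 0 < a ∧ 0 < h0 ∧ (1 ≤ l → ∀ K ∈ 𝒦, ∀ i1 : ℕ, ∃ n0 : ℕ,
      i1 + l ≤ n0 ∧ ∀ n ≥ n0,
      ∀ (h : ℝ) (S : Form (Fin (k + 1)) p), 0 ≤ h → h ≤ h0 →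
      HitL F d K (i1 + l) (Real.exp (-((d : ℝ) ^ n / (n : ℝ) ^ 4))) h →
      Cls K q (a * (d : ℝ) ^ n) S →
      betaL F d n (i1 + l) q (Real.exp (-(δ / (l : ℝ) ^ 2 * (d : ℝ) ^ (n - i1)))) S ≤
        (2 * h + η / (8 * (L + 1))) * mass q (om (k + 1) p)) := by
    intro l
    by_cases hl : 1 ≤ l
    · have hl' : (0 : ℝ) < l := by exact_mod_cast hl
      obtain ⟨a, h0, ha, hh0, h⟩ := hK2 k d p q F 𝒦 hk hd hpq hF hStK hconv l
        (δ / (l : ℝ) ^ 2) (η / (8 * (L + 1))) (by positivity) (by positivity)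
      exact ⟨a, h0, ha, hh0, fun _ => h⟩
    · exact ⟨1, 1, one_pos, one_pos, fun h => absurd h hl⟩
  choose av h0v hav hh0v hk2' using hk2
  obtain ⟨a, ha, haL⟩ : ∃ a : ℝ, 0 < a ∧ ∀ l ≤ L, a ≤ av l := by
    refine ⟨(Finset.range (L + 1)).inf' ⟨0, by simp⟩ av, ?_, ?_⟩
    · rw [Finset.lt_inf'_iff]
      exact fun l _ => hav l
    · intro l hl
      exact Finset.inf'_le _ (Finset.mem_range.2 (by omega))
  obtain ⟨h0, hh0, h0L⟩ : ∃ h0 : ℝ, 0 < h0 ∧ ∀ l ≤ L, h0 ≤ h0v l := by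
    refine ⟨(Finset.range (L + 1)).inf' ⟨0, by simp⟩ h0v, ?_, ?_⟩
    · rw [Finset.lt_inf'_iff]
      exact fun l _ => hh0v l
    · intro l hl
      exact Finset.inf'_le _ (Finset.mem_range.2 (by omega))
  refine ⟨a, ha, fun K hK => ?_⟩
  obtain ⟨i1, n0', hPm⟩ := hP K hK (min h0 (η / 16)) (lt_min hh0 (by positivity))
  -- thresholds of the first levels
  have hm : ∀ l : ℕ, ∃ n0 : ℕ, 1 ≤ l → i1 + l ≤ n0 ∧ ∀ n ≥ n0,
      ∀ (h : ℝ) (S : Form (Fin (k + 1)) p), 0 ≤ h → h ≤ h0v l →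
      HitL F d K (i1 + l) (Real.exp (-((d : ℝ) ^ n / (n : ℝ) ^ 4))) h →
      Cls K q (av l * (d : ℝ) ^ n) S →
      betaL F d n (i1 + l) q (Real.exp (-(δ / (l : ℝ) ^ 2 * (d : ℝ) ^ (n - i1)))) S ≤
        (2 * h + η / (8 * (L + 1))) * mass q (om (k + 1) p) := by
    intro l
    by_cases hl : 1 ≤ l
    · obtain ⟨n0, h1, h2⟩ := hk2' l hl K hK i1
      exact ⟨n0, fun _ => ⟨h1, h2⟩⟩
    · exact ⟨0, fun h => absurd h hl⟩
  choose m0 hm0 using hm
  -- the last term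
  have hlim : Tendsto (fun n : ℕ => (2 * (1 / (n : ℝ)) + C * ((n : ℝ) ^ 3 * (1 / (d : ℝ)) ^ n)) *
      (d : ℝ) ^ i1 / δ) atTop (𝓝 0) := by
    have h1 := (tendsto_one_div_atTop_nhds_zero_nat (𝕜 := ℝ)).const_mul 2
    have h2 := (tendsto_pow_const_mul_const_pow_of_abs_lt_one 3 hr1).const_mul C
    have h3 := ((h1.add h2).mul_const ((d : ℝ) ^ i1)).div_const δ
    simpa using h3
  obtain ⟨n1, hn1⟩ := eventually_atTop.1 (hlim.eventually_le_const (show (0 : ℝ) < η / 8 by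
    positivity))
  obtain ⟨n2, hn2⟩ : ∃ n2 : ℕ, n2 = (Finset.range (L + 1)).sup m0 := ⟨_, rfl⟩
  refine ⟨i1, max (max (max i1 1) n0') (max n1 n2),
    ((le_max_left _ _).trans (le_max_left _ _)).trans (le_max_left _ _), fun n hn S hS => ?_⟩
  have hni1 : i1 ≤ n := (((le_max_left _ _).trans (le_max_left _ _)).trans
    (le_max_left _ _)).trans hn
  have hnn0 : n0' ≤ n := ((le_max_right _ _).trans (le_max_left _ _)).trans hn
  have hnn1 : n1 ≤ n := ((le_max_left _ _).trans (le_max_right _ _)).trans hn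
  have hnn2 : n2 ≤ n := ((le_max_right _ _).trans (le_max_right _ _)).trans hn
  have hn1' : 1 ≤ n := (((le_max_right _ _).trans (le_max_left _ _)).trans
    (le_max_left _ _)).trans hn
  have hnR : (1 : ℝ) ≤ n := by exact_mod_cast hn1'
  have hn0R : (0 : ℝ) < n := by linarith
  obtain ⟨h, hh0', hhs, hhit⟩ := hPm n hnn0
  have hhs1 : ∑ i ∈ Finset.Icc i1 n, h i ≤ η / 16 := hhs.trans (min_le_right _ _)
  have hhle : ∀ i ∈ Finset.Icc i1 n, h i ≤ h0 := fun i hi =>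
    (Finset.single_le_sum (fun j _ => hh0' j) hi).trans (hhs.trans (min_le_left _ _))
  obtain ⟨r, hr⟩ : ∃ r : ℝ, r = Real.exp (-((d : ℝ) ^ n / (n : ℝ) ^ 4)) := ⟨_, rfl⟩
  have hr0 : 0 < r := hr ▸ Real.exp_pos _
  have hr1' : r ≤ 1 := by
    rw [hr]
    apply Real.exp_le_one_iff.2
    have : 0 ≤ (d : ℝ) ^ n / (n : ℝ) ^ 4 := by positivity
    linarith
  have hlog : Real.log (1 / r) = (d : ℝ) ^ n / (n : ℝ) ^ 4 := by
    rw [hr, one_div, ← Real.exp_neg, neg_neg, Real.log_exp]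
  obtain ⟨E, hE⟩ : ∃ E : ℝ, E = (n : ℝ) ^ 2 * (2 / (n : ℝ) ^ 4 + C * (1 / (d : ℝ)) ^ n) *
      (d : ℝ) ^ i1 / δ := ⟨_, rfl⟩
  have hE0 : 0 ≤ E := by
    rw [hE]
    positivity
  have hdn : (0 : ℝ) < (d : ℝ) ^ n := by positivity
  have hdi : (0 : ℝ) < (d : ℝ) ^ i1 := by positivity
  -- the estimate of one term
  have hterm : ∀ l ∈ Finset.Icc 1 (n - i1),
      betaL F d n (i1 + l) q (Real.exp (-(δ / (l : ℝ) ^ 2 * (d : ℝ) ^ (n - i1)))) S ≤
        (2 * h (i1 + l) + (if l ≤ L then η / (8 * (L + 1)) else f l) + E) * M := by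
    intro l hl
    rw [Finset.mem_Icc] at hl
    have hi : i1 + l ∈ Finset.Icc i1 n := Finset.mem_Icc.2 ⟨by omega, by omega⟩
    have hH := hhit (i1 + l) hi
    have hlR : (0 : ℝ) < l := by exact_mod_cast hl.1
    by_cases hlL : l ≤ L
    · rw [if_pos hlL]
      have hmn : m0 l ≤ n2 := by
        rw [hn2]
        exact Finset.le_sup (f := m0) (Finset.mem_range.2 (by omega))
      have hScl : Cls K q (av l * (d : ℝ) ^ n) S :=
        Cls_mono (hM ▸ hM0.le) (mul_le_mul_of_nonneg_right (haL l hlL) hdn.le) hS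
      refine ((hm0 l hl.1).2 n (hmn.trans hnn2) (h (i1 + l)) S (hh0' _)
        ((hhle _ hi).trans (h0L l hlL)) hH hScl).trans ?_
      rw [← hM]
      exact mul_le_mul_of_nonneg_right (by linarith) hM0.le
    · rw [if_neg hlL]
      obtain ⟨δ', hδ'⟩ : ∃ δ' : ℝ, δ' = δ / (l : ℝ) ^ 2 / (d : ℝ) ^ i1 := ⟨_, rfl⟩
      have hδ'0 : 0 < δ' := by
        rw [hδ']
        positivity
      have e0 : δ / (l : ℝ) ^ 2 * (d : ℝ) ^ (n - i1) = δ' * (d : ℝ) ^ n := by
        have : (d : ℝ) ^ n = (d : ℝ) ^ i1 * (d : ℝ) ^ (n - i1) := by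
          rw [← pow_add]
          congr 1
          omega
        rw [this, hδ']
        field_simp
      rw [e0]
      rw [hr] at hr0 hr1' hlog
      have h1 := hk1 K n (i1 + l) δ' _ (h (i1 + l)) S (by omega) hδ'0 hr0 hr1' (hh0' _) hH
        hS.pf hS.ink hS.ms
      refine h1.trans ?_
      rw [← hM, hlog]
      refine mul_le_mul_of_nonneg_right ?_ hM0.le
      have h3 : C / (δ' * (d : ℝ) ^ (i1 + l)) = f l := by
        rw [hf, hδ', pow_add]
        show _ = C / δ * ((l : ℝ) ^ 2 * (1 / (d : ℝ)) ^ l)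
        rw [one_div, inv_pow]
        field_simp
      have h4 : (2 * ((d : ℝ) ^ n / (n : ℝ) ^ 4) + C) / (δ' * (d : ℝ) ^ n) ≤ E := by
        have e1 : (2 * ((d : ℝ) ^ n / (n : ℝ) ^ 4) + C) / (δ' * (d : ℝ) ^ n) =
            (l : ℝ) ^ 2 * (2 / (n : ℝ) ^ 4 + C * (1 / (d : ℝ)) ^ n) * (d : ℝ) ^ i1 / δ := by
          rw [hδ', one_div, inv_pow]
          field_simp
        rw [e1, hE]
        have hln : (l : ℝ) ≤ n := by
          have : l ≤ n := by omega
          exact_mod_cast this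
        refine div_le_div_of_nonneg_right ?_ hδ.le
        refine mul_le_mul_of_nonneg_right ?_ hdi.le
        exact mul_le_mul_of_nonneg_right (pow_le_pow_left₀ hlR.le hln 2) (by positivity)
      linarith
  refine (Finset.sum_le_sum hterm).trans ?_
  rw [← Finset.sum_mul, Finset.sum_add_distrib, Finset.sum_add_distrib, ← hM]
  refine mul_le_mul_of_nonneg_right ?_ hM0.le
  -- the three sums
  have hs1 : ∑ l ∈ Finset.Icc 1 (n - i1), 2 * h (i1 + l) ≤ η / 8 := by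
    rw [← Finset.mul_sum]
    have h1 : ∑ l ∈ Finset.Icc 1 (n - i1), h (i1 + l) ≤ ∑ i ∈ Finset.Icc i1 n, h i := by
      have h2 : ∑ l ∈ Finset.Icc 1 (n - i1), h (i1 + l) =
          ∑ i ∈ (Finset.Icc 1 (n - i1)).image (fun l => i1 + l), h i := by
        rw [Finset.sum_image (fun x _ y _ hxy => by simpa using hxy)]
      rw [h2]
      refine Finset.sum_le_sum_of_subset_of_nonneg ?_ fun i _ _ => hh0' i
      intro i hi
      rw [Finset.mem_image] at hi
      obtain ⟨l, hl, rfl⟩ := hi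
      rw [Finset.mem_Icc] at hl ⊢
      omega
    linarith
  have hs2 : ∑ l ∈ Finset.Icc 1 (n - i1), (if l ≤ L then η / (8 * (L + 1)) else f l) ≤
      η / 8 + η / 8 := by
    rw [← Finset.sum_filter_add_sum_filter_not (Finset.Icc 1 (n - i1)) (fun l => l ≤ L)]
    refine add_le_add ?_ ?_
    · rw [Finset.sum_congr rfl fun l hl => if_pos (Finset.mem_filter.1 hl).2, Finset.sum_const,
        nsmul_eq_mul]
      have h1 : (((Finset.Icc 1 (n - i1)).filter fun l => l ≤ L).card : ℝ) ≤ L + 1 := by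
        have h2 : ((Finset.Icc 1 (n - i1)).filter fun l => l ≤ L) ⊆
            Finset.range (L + 1) := by
          intro l hl
          rw [Finset.mem_filter] at hl
          rw [Finset.mem_range]
          omega
        have h3 := Finset.card_le_card h2
        rw [Finset.card_range] at h3
        exact_mod_cast h3
      have h4 : (0 : ℝ) < L + 1 := by positivity
      calc (((Finset.Icc 1 (n - i1)).filter fun l => l ≤ L).card : ℝ) *
            (η / (8 * (L + 1))) ≤ (L + 1) * (η / (8 * (L + 1))) :=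
            mul_le_mul_of_nonneg_right h1 (by positivity)
        _ = η / 8 := by field_simp
    · rw [Finset.sum_congr rfl fun l hl => if_neg (Finset.mem_filter.1 hl).2]
      have h1 := hs ((Finset.Icc 1 (n - i1)).filter fun l => ¬ l ≤ L) (by
        rw [Finset.disjoint_left]
        intro l hl hls
        apply (Finset.mem_filter.1 hl).2
        rw [hL]
        exact Finset.le_sup (f := id) hls)
      exact (Real.le_norm_self _).trans h1.le
  have hs3 : ∑ _l ∈ Finset.Icc 1 (n - i1), E ≤ η / 8 := by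
    rw [Finset.sum_const, nsmul_eq_mul, Nat.card_Icc]
    have h1 : ((n - i1 + 1 - 1 : ℕ) : ℝ) ≤ n := by
      have : n - i1 + 1 - 1 ≤ n := by omega
      exact_mod_cast this
    have h2 : (n : ℝ) * E =
        (2 * (1 / (n : ℝ)) + C * ((n : ℝ) ^ 3 * (1 / (d : ℝ)) ^ n)) * (d : ℝ) ^ i1 / δ := by
      rw [hE]
      field_simp
    calc ((n - i1 + 1 - 1 : ℕ) : ℝ) * E ≤ n * E := mul_le_mul_of_nonneg_right h1 hE0
      _ ≤ η / 8 := by
          rw [h2]
          exact hn1 n hnn1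
  linarith

end Pool.Agent.H38.EHD
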